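import Mathlib

/-!
# MP_b39627_an: monotone minorants with large derivative product, in every dimension
-/

namespace Pool.Agent.Results.MP_b39627_an.Minorant

open Filter Topology

/-- The closed nonnegative orthant of `ℝᵐ`. -/
def orthant (m : ℕ) : Set (Fin m → ℝ) := {x | ∀ i, 0 ≤ x i}

/-- `f` is increasing in each variable on the closed nonnegative orthant. -/
def IncreasingInEach {m : ℕ} (f : (Fin m → ℝ) → ℝ) : Prop :=
  ∀ x ∈ orthant m, ∀ (i : Fin m) (t : ℝ), x i ≤ t → f x ≤ f (Function.update x i t)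

variable {m : ℕ}

lemma IncreasingInEach.mono {f : (Fin m → ℝ) → ℝ} (hf : IncreasingInEach f)
    {x y : Fin m → ℝ} (hx : x ∈ orthant m) (hxy : x ≤ y) : f x ≤ f y := by
  classical
  have key : ∀ s : Finset (Fin m), f x ≤ f (s.piecewise y x) := by
    intro s
    induction s using Finset.induction_on with
    | empty => simp
    | insert a s ha ih =>
      refine ih.trans ?_
      rw [Finset.piecewise_insert]
      refine hf _ ?_ a (y a) ?_
      · intro i
        by_cases hi : i ∈ s
        · rw [Finset.piecewise_eq_of_mem _ _ _ hi]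
          exact (hx i).trans (hxy i)
        · rw [Finset.piecewise_eq_of_notMem _ _ _ hi]
          exact hx i
      · rw [Finset.piecewise_eq_of_notMem _ _ _ ha]
        exact hxy a
  simpa using key Finset.univ

/-- the geometric mean times `c` -/
noncomputable def g (c : ℝ) (z : Fin m → ℝ) : ℝ := c * (∏ i, z i) ^ (1 / (m : ℝ))

lemma g_cont (c : ℝ) : Continuous (g (m := m) c) := by
  unfold g
  refine continuous_const.mul ?_
  refine (Real.continuous_rpow_const (by positivity)).comp ?_
  exact continuous_finsetProd _ fun i _ => continuous_apply i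

lemma g_nonneg {c : ℝ} (hc : 0 ≤ c) {z : Fin m → ℝ} (hz : z ∈ orthant m) : 0 ≤ g c z :=
  mul_nonneg hc (Real.rpow_nonneg (Finset.prod_nonneg fun i _ => hz i) _)

lemma g_eq_zero (hm : 1 ≤ m) (c : ℝ) {z : Fin m → ℝ} {i : Fin m} (hi : z i = 0) : g c z = 0 := by
  unfold g
  rw [Finset.prod_eq_zero (Finset.mem_univ i) hi, Real.zero_rpow, mul_zero]
  have : (0 : ℝ) < m := by exact_mod_cast hm
  positivity

lemma g_smul (hm : 1 ≤ m) (c : ℝ) {t : ℝ} (ht : 0 ≤ t) {z : Fin m → ℝ} (hz : z ∈ orthant m) :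
    g c (t • z) = t * g c z := by
  unfold g
  have hm' : (0 : ℝ) < m := by exact_mod_cast hm
  have h1 : ∏ i, (t • z) i = t ^ m * ∏ i, z i := by
    simp [Finset.prod_mul_distrib]
  rw [h1, Real.mul_rpow (by positivity) (Finset.prod_nonneg fun i _ => hz i),
    ← Real.rpow_natCast, ← Real.rpow_mul ht]
  rw [mul_one_div_cancel hm'.ne', Real.rpow_one]
  ring

/-- the arithmetic-geometric mean inequality in the form needed -/
lemma amgm (hm : 1 ≤ m) {z : Fin m → ℝ} (hz : z ∈ orthant m) :
    (∏ i, z i) ^ (1 / (m : ℝ)) ≤ (∑ i, z i) / m := by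
  have hm' : (0 : ℝ) < m := by exact_mod_cast hm
  have h := Real.geom_mean_le_arith_mean_weighted (Finset.univ : Finset (Fin m))
    (fun _ => 1 / (m : ℝ)) z (fun _ _ => by positivity) (by simp; field_simp) (fun i _ => hz i)
  rw [Real.finsetProd_rpow _ _ (fun i _ => hz i)] at h
  refine h.trans (le_of_eq ?_)
  rw [← Finset.mul_sum]
  ring

/-- superadditivity of the geometric mean -/
lemma g_super (hm : 1 ≤ m) {c : ℝ} (hc : 0 ≤ c) {z w : Fin m → ℝ} (hz : z ∈ orthant m)
    (hw : w ∈ orthant m) : g c z + g c w ≤ g c (z + w) := by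
  have hm' : (0 : ℝ) < m := by exact_mod_cast hm
  by_cases h0 : ∃ i, (z + w) i = 0
  · obtain ⟨i, hi⟩ := h0
    have hi' : z i + w i = 0 := hi
    have h1 : z i = 0 := by linarith [hz i, hw i]
    have h2 : w i = 0 := by linarith [hz i, hw i]
    rw [g_eq_zero hm c h1, g_eq_zero hm c h2, g_eq_zero hm c hi]
    simp
  · push Not at h0
    have hpos : ∀ i, 0 < z i + w i := fun i =>
      lt_of_le_of_ne (add_nonneg (hz i) (hw i)) (Ne.symm (h0 i))
    have hP : 0 < ∏ i, (z i + w i) := Finset.prod_pos fun i _ => hpos i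
    have h1 := amgm hm (z := fun i => z i / (z i + w i)) (fun i => div_nonneg (hz i) (hpos i).le)
    have h2 := amgm hm (z := fun i => w i / (z i + w i)) (fun i => div_nonneg (hw i) (hpos i).le)
    have h3 : (∑ i, z i / (z i + w i)) / m + (∑ i, w i / (z i + w i)) / m = 1 := by
      rw [← add_div, ← Finset.sum_add_distrib]
      have : ∀ i, z i / (z i + w i) + w i / (z i + w i) = 1 := by
        intro i
        rw [← add_div, div_self (hpos i).ne']
      simp only [this]
      rw [Finset.sum_const, Finset.card_univ, Fintype.card_fin, nsmul_eq_mul, mul_one,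
        div_self hm'.ne']
    rw [Finset.prod_div_distrib, Real.div_rpow (Finset.prod_nonneg fun i _ => hz i) hP.le] at h1
    rw [Finset.prod_div_distrib, Real.div_rpow (Finset.prod_nonneg fun i _ => hw i) hP.le] at h2
    have hR : 0 < (∏ i, (z i + w i)) ^ (1 / (m : ℝ)) := Real.rpow_pos_of_pos hP _
    have h4 : ((∏ i, z i) ^ (1 / (m : ℝ)) + (∏ i, w i) ^ (1 / (m : ℝ))) /
        (∏ i, (z i + w i)) ^ (1 / (m : ℝ)) ≤ 1 := by
      rw [add_div]
      linarith
    rw [div_le_one hR] at h4
    unfold g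
    rw [← mul_add]
    exact mul_le_mul_of_nonneg_left h4 hc

/-- The levels that can be reached at a point by chains starting at the origin. -/
inductive Reach (u : (Fin m → ℝ) → ℝ) (c : ℝ) : (Fin m → ℝ) → ℝ → Prop
  | zero : Reach u c 0 0
  | step {a b : Fin m → ℝ} {l : ℝ} : Reach u c a l → a ≤ b →
      Reach u c b (min (u a) (l + g c (b - a)))

/-- the minorant -/
noncomputable def v (u : (Fin m → ℝ) → ℝ) (c : ℝ) (x : Fin m → ℝ) : ℝ := sSup {l | Reach u c x l}

section

variable {u : (Fin m → ℝ) → ℝ} {c : ℝ} (hm : 1 ≤ m) (hc : 0 ≤ c)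
  (hmono : ∀ x ∈ orthant m, ∀ y, x ≤ y → u x ≤ u y) (hnn : ∀ x ∈ orthant m, 0 ≤ u x)
  (hz : ∀ x ∈ orthant m, (∃ i, x i = 0) → u x = 0)

include hm hc hmono hnn hz

lemma reach_prop {a : Fin m → ℝ} {l : ℝ} (h : Reach u c a l) :
    a ∈ orthant m ∧ 0 ≤ l ∧ l ≤ u a := by
  induction h with
  | zero =>
    have h0 : (0 : Fin m → ℝ) ∈ orthant m := fun i => le_rfl
    refine ⟨h0, le_rfl, ?_⟩
    rw [hz 0 h0 ⟨⟨0, by omega⟩, rfl⟩]
  | @step a b l _ hab ih =>
    obtain ⟨h1, h2, h3⟩ := ih
    have hb : b ∈ orthant m := fun i => (h1 i).trans (hab i)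
    have hba : b - a ∈ orthant m := fun i => sub_nonneg.2 (hab i)
    refine ⟨hb, ?_, ?_⟩
    · exact le_min (h2.trans h3) (add_nonneg h2 (g_nonneg hc hba))
    · exact (min_le_left _ _).trans (hmono a h1 b hab)

lemma reach_bdd (x : Fin m → ℝ) : BddAbove {l | Reach u c x l} :=
  ⟨u x, fun _ hl => (reach_prop hm hc hmono hnn hz hl).2.2⟩

lemma reach_nonempty {x : Fin m → ℝ} (hx : x ∈ orthant m) : {l | Reach u c x l}.Nonempty :=
  ⟨_, Reach.step Reach.zero hx⟩

lemma v_nonneg {x : Fin m → ℝ} (hx : x ∈ orthant m) : 0 ≤ v u c x := by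
  obtain ⟨l, hl⟩ := reach_nonempty hm hc hmono hnn hz hx
  exact (reach_prop hm hc hmono hnn hz hl).2.1.trans (le_csSup (reach_bdd hm hc hmono hnn hz x) hl)

lemma v_le {x : Fin m → ℝ} (hx : x ∈ orthant m) : v u c x ≤ u x :=
  csSup_le (reach_nonempty hm hc hmono hnn hz hx) fun _ hl =>
    (reach_prop hm hc hmono hnn hz hl).2.2

lemma v_step {x y : Fin m → ℝ} (hx : x ∈ orthant m) (hxy : x ≤ y) :
    min (u x) (v u c x + g c (y - x)) ≤ v u c y := by
  refine le_of_forall_pos_le_add fun ε hε => ?_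
  obtain ⟨l, hl, hlv⟩ := exists_lt_of_lt_csSup (reach_nonempty hm hc hmono hnn hz hx)
    (show v u c x - ε < sSup {l | Reach u c x l} by unfold v; linarith)
  have h1 := le_csSup (reach_bdd hm hc hmono hnn hz y) (Reach.step hl hxy)
  have h2 : min (u x) (v u c x + g c (y - x)) ≤ min (u x) (l + g c (y - x)) + ε := by
    rw [← min_add_add_right]
    exact min_le_min (by linarith) (by linarith)
  have h3 : v u c y = sSup {l | Reach u c y l} := rfl
  rw [h3]
  linarith

lemma v_mono {x y : Fin m → ℝ} (hx : x ∈ orthant m) (hxy : x ≤ y) : v u c x ≤ v u c y := by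
  refine le_trans ?_ (v_step hm hc hmono hnn hz hx hxy)
  have hyx : y - x ∈ orthant m := fun i => sub_nonneg.2 (hxy i)
  exact le_min (v_le hm hc hmono hnn hz hx) (by linarith [g_nonneg hc hyx])

lemma reach_trunc {x y : Fin m → ℝ} {ω : ℝ} (hω : 0 ≤ ω) (hx : x ∈ orthant m)
    (hg : ∀ a : Fin m → ℝ, a ∈ orthant m → a ≤ x → ∀ b, a ≤ b → b ≤ y →
      g c (b - a) ≤ g c (x - a) + ω)
    {a : Fin m → ℝ} {l : ℝ} (h : Reach u c a l) (hay : a ≤ y) :
    (a ≤ x ∧ l ≤ v u c x) ∨ ∃ (p : Fin m → ℝ) (i : Fin m), p ∈ orthant m ∧ p ≤ a ∧ x i < p i ∧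
      l ≤ v u c x + ω + g c (a - p) := by
  induction h with
  | zero => exact Or.inl ⟨hx, v_nonneg hm hc hmono hnn hz hx⟩
  | @step a b l hreach hab ih =>
    obtain ⟨h1, h2, h3⟩ := reach_prop hm hc hmono hnn hz hreach
    rcases ih (hab.trans hay) with ⟨hax, hl⟩ | ⟨p, i, hp0, hpa, hpi, hl⟩
    · by_cases hbx : b ≤ x
      · left
        refine ⟨hbx, ?_⟩
        have hb : b ∈ orthant m := fun i => (h1 i).trans (hab i)
        exact (le_csSup (reach_bdd hm hc hmono hnn hz b) (Reach.step hreach hab)).trans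
          (v_mono hm hc hmono hnn hz hb hbx)
      · right
        obtain ⟨i, hi⟩ : ∃ i, x i < b i := by
          by_contra hcon
          push Not at hcon
          exact hbx hcon
        refine ⟨b, i, fun i => (h1 i).trans (hab i), le_rfl, hi, ?_⟩
        have h4 := hg a h1 hax b hab hay
        have h5 := le_csSup (reach_bdd hm hc hmono hnn hz x) (Reach.step hreach hax)
        have h6 : min (u a) (l + g c (b - a)) ≤ min (u a) (l + g c (x - a)) + ω := by
          rw [← min_add_add_right]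
          exact min_le_min (by linarith) (by linarith)
        have h7 : g c (b - b) = 0 := by
          rw [sub_self]
          exact g_eq_zero hm c (i := ⟨0, by omega⟩) rfl
        have h8 : v u c x = sSup {l | Reach u c x l} := rfl
        rw [h7, h8]
        linarith
    · right
      refine ⟨p, i, hp0, hpa.trans hab, hpi, ?_⟩
      have h4 : min (u a) (l + g c (b - a)) ≤ l + g c (b - a) := min_le_right _ _
      have h5 := g_super hm hc (z := a - p) (w := b - a) (fun i => sub_nonneg.2 (hpa i))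
        (fun i => sub_nonneg.2 (hab i))
      have h6 : a - p + (b - a) = b - p := by abel
      rw [h6] at h5
      linarith

lemma v_upper {R ε δ : ℝ} (hε : 0 ≤ ε)
    (hunif : ∀ z w : Fin m → ℝ, (∀ i, 0 ≤ z i ∧ z i ≤ R) → (∀ i, 0 ≤ w i ∧ w i ≤ R) →
      (∀ i, |z i - w i| ≤ δ) → |g c z - g c w| ≤ ε)
    {x y : Fin m → ℝ} (hx : x ∈ orthant m) (hxy : x ≤ y) (hyR : ∀ i, y i ≤ R)
    (hd : ∀ i, y i - x i ≤ δ) : v u c y ≤ v u c x + 2 * ε := by
  have hy : y ∈ orthant m := fun i => (hx i).trans (hxy i)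
  have hδ : 0 ≤ δ := (sub_nonneg.2 (hxy ⟨0, by omega⟩)).trans (hd ⟨0, by omega⟩)
  refine csSup_le (reach_nonempty hm hc hmono hnn hz hy) fun l hl => ?_
  have hg : ∀ a : Fin m → ℝ, a ∈ orthant m → a ≤ x → ∀ b, a ≤ b → b ≤ y →
      g c (b - a) ≤ g c (x - a) + ε := by
    intro a ha hax b hab hby
    have h1 : g c (b - a) ≤ g c (y - a) := by
      have h2 := g_super hm hc (z := b - a) (w := y - b) (fun i => sub_nonneg.2 (hab i))
        (fun i => sub_nonneg.2 (hby i))
      have h3 : b - a + (y - b) = y - a := by abel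
      rw [h3] at h2
      have h4 : 0 ≤ g c (y - b) := g_nonneg hc fun i => sub_nonneg.2 (hby i)
      linarith
    have h5 := hunif (y - a) (x - a) (fun i => ⟨?_, ?_⟩) (fun i => ⟨?_, ?_⟩) (fun i => ?_)
    · have := (abs_le.1 h5).2
      linarith
    · exact sub_nonneg.2 ((hax i).trans (hxy i))
    · have := hyR i
      have := ha i
      show y i - a i ≤ R
      linarith
    · exact sub_nonneg.2 (hax i)
    · have := hyR i
      have := hxy i
      have := ha i
      show x i - a i ≤ R
      linarith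
    · show |y i - a i - (x i - a i)| ≤ δ
      rw [sub_sub_sub_cancel_right, abs_of_nonneg (sub_nonneg.2 (hxy i))]
      exact hd i
  rcases reach_trunc hm hc hmono hnn hz hε hx hg hl le_rfl with ⟨-, h⟩ | ⟨p, i, hp0, hpy, hpi, h⟩
  · linarith
  · have h1 : g c (y - p) ≤ ε := by
      classical
      have h2 := hunif (y - p) (Function.update (y - p) i 0) (fun j => ⟨?_, ?_⟩)
        (fun j => ⟨?_, ?_⟩) (fun j => ?_)
      · rw [g_eq_zero hm c (z := Function.update (y - p) i 0) (i := i) (by simp), sub_zero] at h2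
        exact (le_abs_self _).trans h2
      · exact sub_nonneg.2 (hpy j)
      · have := hyR j
        have := hp0 j
        show y j - p j ≤ R
        linarith
      · by_cases hj : j = i
        · rw [hj]
          simp
        · rw [Function.update_of_ne hj]
          exact sub_nonneg.2 (hpy j)
      · by_cases hj : j = i
        · rw [hj]
          simp only [Function.update_self]
          exact (hy i).trans (hyR i)
        · rw [Function.update_of_ne hj]
          have := hyR j
          have := hp0 j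
          show y j - p j ≤ R
          linarith
      · by_cases hj : j = i
        · rw [hj]
          simp only [Function.update_self, sub_zero]
          show |y i - p i| ≤ δ
          rw [abs_of_nonneg (sub_nonneg.2 (hpy i))]
          have := hd i
          linarith
        · rw [Function.update_of_ne hj]
          simpa using hδ
    linarith

lemma v_cont : ContinuousOn (v u c) (orthant m) := by
  rw [Metric.continuousOn_iff]
  intro x₀ hx₀ ε hε
  set R : ℝ := ‖x₀‖ + 1 with hR
  have hK : IsCompact (Set.pi Set.univ fun _ : Fin m => Set.Icc (0 : ℝ) R) :=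
    isCompact_univ_pi fun _ => isCompact_Icc
  have huc := hK.uniformContinuousOn_of_continuous (g_cont (m := m) c).continuousOn
  obtain ⟨δ, hδ, hδu⟩ := Metric.uniformContinuousOn_iff.1 huc (ε / 4) (by positivity)
  have hunif : ∀ z w : Fin m → ℝ, (∀ i, 0 ≤ z i ∧ z i ≤ R) → (∀ i, 0 ≤ w i ∧ w i ≤ R) →
      (∀ i, |z i - w i| ≤ δ / 2) → |g c z - g c w| ≤ ε / 4 := by
    intro z w hz' hw' hzw
    have := hδu z (fun i _ => hz' i) w (fun i _ => hw' i) ?_
    · rw [Real.dist_eq] at this
      exact this.le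
    · rw [dist_pi_lt_iff hδ]
      intro i
      rw [Real.dist_eq]
      exact (hzw i).trans_lt (by linarith)
  refine ⟨min (δ / 2) 1, by positivity, ?_⟩
  intro x hx hxd
  have hxi : ∀ i, |x i - x₀ i| ≤ min (δ / 2) 1 := by
    intro i
    have := dist_le_pi_dist x x₀ i
    rw [Real.dist_eq] at this
    exact this.trans hxd.le
  have hlo : x ⊓ x₀ ∈ orthant m := fun i => le_inf (hx i) (hx₀ i)
  have hup := v_upper hm hc hmono hnn hz (R := R) (ε := ε / 4) (δ := δ / 2) (by positivity) hunif
    (x := x ⊓ x₀) (y := x ⊔ x₀) hlo (inf_le_left.trans le_sup_left) ?_ ?_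
  · have h1 := v_mono hm hc hmono hnn hz hlo (inf_le_left : x ⊓ x₀ ≤ x)
    have h2 := v_mono hm hc hmono hnn hz hlo (inf_le_right : x ⊓ x₀ ≤ x₀)
    have h3 := v_mono hm hc hmono hnn hz hx (le_sup_left : x ≤ x ⊔ x₀)
    have h4 := v_mono hm hc hmono hnn hz hx₀ (le_sup_right : x₀ ≤ x ⊔ x₀)
    rw [Real.dist_eq, abs_lt]
    constructor <;> linarith
  · intro i
    have h1 : x₀ i ≤ ‖x₀‖ := (le_abs_self _).trans (norm_le_pi_norm x₀ i)
    have h2 := (abs_le.1 ((hxi i).trans (min_le_right _ _))).2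
    exact sup_le (by linarith) (by linarith)
  · intro i
    have h2 := abs_le.1 ((hxi i).trans (min_le_left _ _))
    show x i ⊔ x₀ i - x i ⊓ x₀ i ≤ δ / 2
    rcases le_total (x i) (x₀ i) with h | h
    · rw [sup_of_le_right h, inf_of_le_left h]
      linarith
    · rw [sup_of_le_left h, inf_of_le_right h]
      linarith

/-- the differential inequality where `v < u` -/
lemma v_deriv {x : Fin m → ℝ} (hx : x ∈ orthant m) (hd : DifferentiableWithinAt ℝ (v u c) (orthant m) x)
    (hne : v u c x ≠ u x) {z : Fin m → ℝ} (hz0 : z ∈ orthant m) :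
    g c z ≤ fderivWithin ℝ (v u c) (orthant m) x z := by
  have hlt : v u c x < u x := lt_of_le_of_ne (v_le hm hc hmono hnn hz hx) hne
  -- the one dimensional function
  have hline : HasDerivWithinAt (fun t : ℝ => v u c (x + t • z))
      (fderivWithin ℝ (v u c) (orthant m) x z) (Set.Ici 0) 0 := by
    have h1 : HasFDerivWithinAt (v u c) (fderivWithin ℝ (v u c) (orthant m) x) (orthant m)
        (x + (0 : ℝ) • z) := by
      rw [zero_smul, add_zero]
      exact hd.hasFDerivWithinAt
    have h2 : HasDerivWithinAt (fun t : ℝ => x + t • z) z (Set.Ici 0) 0 := by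
      have := ((hasDerivAt_id (0 : ℝ)).smul_const z).const_add x
      simpa using this.hasDerivWithinAt
    have h3 : Set.MapsTo (fun t : ℝ => x + t • z) (Set.Ici 0) (orthant m) := fun t ht i =>
      add_nonneg (hx i) (mul_nonneg ht (hz0 i))
    exact h1.comp_hasDerivWithinAt (0 : ℝ) h2 h3
  have hlim := hasDerivWithinAt_iff_tendsto_slope.1 hline
  have hset : (Set.Ici (0 : ℝ)) \ {0} = Set.Ioi 0 := by
    ext t
    simp only [Set.mem_sdiff, Set.mem_Ici, Set.mem_singleton_iff, Set.mem_Ioi]
    exact ⟨fun h => lt_of_le_of_ne h.1 (Ne.symm h.2), fun h => ⟨h.le, h.ne'⟩⟩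
  rw [hset] at hlim
  refine ge_of_tendsto hlim ?_
  -- for small `t > 0`
  have hsmall : ∀ᶠ t in 𝓝[>] (0 : ℝ), t * g c z < u x - v u c x := by
    have h1 : Tendsto (fun t : ℝ => t * g c z) (𝓝[>] 0) (𝓝 (0 * g c z)) :=
      (tendsto_nhdsWithin_of_tendsto_nhds tendsto_id).mul_const _
    rw [zero_mul] at h1
    exact h1.eventually (gt_mem_nhds (by linarith))
  filter_upwards [hsmall, self_mem_nhdsWithin] with t ht ht0
  have ht0' : 0 < t := ht0
  have hxt : x ≤ x + t • z := fun i => by
    have := mul_nonneg ht0'.le (hz0 i)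
    show x i ≤ x i + t * z i
    linarith
  have h1 := v_step hm hc hmono hnn hz hx hxt
  rw [add_sub_cancel_left, g_smul hm c ht0'.le hz0, min_eq_right (by linarith)] at h1
  rw [slope_def_field]
  simp only [zero_smul, add_zero, sub_zero]
  rw [le_div_iff₀ ht0']
  linarith

end

/-- **Affirmative answer to Q1 of MP_b39627_an, in every dimension `m ≥ 1`.** -/
theorem result (m : ℕ) (hm : 1 ≤ m) (u : (Fin m → ℝ) → ℝ) (hu : IncreasingInEach u)
    (hu0 : ∀ x ∈ orthant m, 0 ≤ u x) (huz : ∀ x ∈ orthant m, (∃ i, x i = 0) → u x = 0)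
    (C : ℝ) (hC : 0 < C) :
    ∃ w : (Fin m → ℝ) → ℝ, ContinuousOn w (orthant m) ∧ IncreasingInEach w ∧
      (∀ x ∈ orthant m, 0 ≤ w x ∧ w x ≤ u x) ∧
      ∀ x ∈ orthant m, DifferentiableWithinAt ℝ w (orthant m) x → w x ≠ u x →
        C ≤ ∏ i, fderivWithin ℝ w (orthant m) x (Pi.single i 1) := by
  classical
  have hm' : (0 : ℝ) < m := by exact_mod_cast hm
  set c : ℝ := m * C ^ (1 / (m : ℝ)) with hc
  have hc0 : 0 ≤ c := by positivity
  have hmono : ∀ x ∈ orthant m, ∀ y, x ≤ y → u x ≤ u y := fun x hx y hxy => hu.mono hx hxy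
  refine ⟨v u c, v_cont hm hc0 hmono hu0 huz, ?_, fun x hx =>
    ⟨v_nonneg hm hc0 hmono hu0 huz hx, v_le hm hc0 hmono hu0 huz hx⟩, ?_⟩
  · intro x hx i t ht
    refine v_mono hm hc0 hmono hu0 huz hx ?_
    intro j
    by_cases hj : j = i
    · rw [hj]
      simpa using ht
    · rw [Function.update_of_ne hj]
  · intro x hx hd hne
    set L := fderivWithin ℝ (v u c) (orthant m) x with hL
    have hder : ∀ z : Fin m → ℝ, z ∈ orthant m → g c z ≤ L z := fun z hz0 =>
      v_deriv hm hc0 hmono hu0 huz hx hd hne hz0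
    set p : Fin m → ℝ := fun i => L (Pi.single i 1) with hp
    have hLz : ∀ z : Fin m → ℝ, L z = ∑ i, z i * p i := by
      intro z
      have h1 : z = ∑ i, z i • (Pi.single i (1 : ℝ) : Fin m → ℝ) := by
        funext j
        simp [Finset.sum_apply, Pi.single_apply]
      conv_lhs => rw [h1]
      rw [map_sum]
      simp only [map_smul, smul_eq_mul, hp]
    have hp0 : ∀ i, 0 ≤ p i := by
      intro i
      have h1 : (Pi.single i 1 : Fin m → ℝ) ∈ orthant m := by
        intro j
        by_cases hj : j = i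
        · rw [hj]
          simp
        · rw [Pi.single_eq_of_ne hj]
      exact (g_nonneg hc0 h1).trans (hder _ h1)
    have hε : ∀ ε : ℝ, 0 < ε → C ≤ ∏ i, (p i + ε) := by
      intro ε hε
      have hpe : ∀ i, 0 < p i + ε := fun i => by linarith [hp0 i]
      have h1 := hder (fun i => (p i + ε)⁻¹) (fun i => (inv_pos.2 (hpe i)).le)
      rw [hLz] at h1
      have h2 : ∑ i, (p i + ε)⁻¹ * p i ≤ m := by
        have : ∀ i ∈ (Finset.univ : Finset (Fin m)), (p i + ε)⁻¹ * p i ≤ 1 := by
          intro i _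
          rw [inv_mul_le_iff₀ (hpe i)]
          linarith
        refine (Finset.sum_le_sum this).trans ?_
        simp
      have hP : 0 < ∏ i, (p i + ε) := Finset.prod_pos fun i _ => hpe i
      unfold g at h1
      rw [Finset.prod_inv_distrib, Real.inv_rpow hP.le, hc] at h1
      have h3 : (m : ℝ) * C ^ (1 / (m : ℝ)) * ((∏ i, (p i + ε)) ^ (1 / (m : ℝ)))⁻¹ ≤ m :=
        h1.trans h2
      have hR : 0 < (∏ i, (p i + ε)) ^ (1 / (m : ℝ)) := Real.rpow_pos_of_pos hP _
      rw [← div_eq_mul_inv, div_le_iff₀ hR] at h3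
      have h4 : C ^ (1 / (m : ℝ)) ≤ (∏ i, (p i + ε)) ^ (1 / (m : ℝ)) :=
        le_of_mul_le_mul_left h3 hm'
      exact (Real.rpow_le_rpow_iff hC.le hP.le (by positivity)).1 h4
    have hlim : Tendsto (fun ε : ℝ => ∏ i, (p i + ε)) (𝓝[>] 0) (𝓝 (∏ i, p i)) := by
      have h1 : Continuous (fun ε : ℝ => ∏ i, (p i + ε)) :=
        continuous_finsetProd _ fun i _ => continuous_const.add continuous_id
      have h2 := h1.tendsto 0
      simp only [add_zero] at h2
      exact tendsto_nhdsWithin_of_tendsto_nhds h2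
    refine ge_of_tendsto hlim ?_
    filter_upwards [self_mem_nhdsWithin] with ε hε0
    exact hε ε hε0

end Pool.Agent.Results.MP_b39627_an.Minorant
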